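import Pool.Agent.Work.MP_4eb3f9_an_helper82.B4b

/-!
# MP_4eb3f9_an, block B4: pointwise bounds of polynomials with a weighted norm at most 1
-/

open Complex MeasureTheory Filter Topology
open scoped ContDiff ComplexOrder

namespace CMA

open B4

theorem stmt_B4 : Stmt_B4 := by
  intro u r δ hu hu0 hr hr1 hδ
  have huc : Continuous u := hu.continuous
  set e : ℝ := δ / 10 with he
  have hepos : 0 < e := by positivity
  -- modulus of continuity
  have hK : IsCompact (Metric.closedBall (0 : ℂ) 2 ×ˢ Metric.closedBall (0 : ℂ) 1) :=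
    (isCompact_closedBall _ _).prod (isCompact_closedBall _ _)
  have huni := hK.uniformContinuousOn_of_continuous huc.continuousOn
  rw [Metric.uniformContinuousOn_iff] at huni
  obtain ⟨η, hη, hmod⟩ := huni e hepos
  set ρ : ℝ := min (1 / 2) (η / 3) with hρdef
  have hρ : 0 < ρ := by positivity
  have hρ1 : ρ ≤ 1 / 2 := min_le_left _ _
  have hρη : ρ ≤ η / 3 := min_le_right _ _
  obtain ⟨t, htsub, htfin, hcov⟩ :=
    (isCompact_closedBall (0 : ℂ) 1).finite_cover_balls hρ
  have hper : ∀ x : ℂ, Function.Periodic (fun θ : ℝ => u (x, r * exp (θ * I)))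
      (2 * Real.pi) := by
    intro x θ
    have : exp (((θ + 2 * Real.pi : ℝ) : ℂ) * I) = exp (θ * I) := by
      push_cast
      rw [add_mul, Complex.exp_add, Complex.exp_two_pi_mul_I, mul_one]
    simp only [this]
  have hG : ∀ x : ℂ, ∃ G : ℂ → ℂ, Differentiable ℂ G ∧
      ∀ θ : ℝ, |(G (exp (θ * I))).re - u (x, r * exp (θ * I))| ≤ e := fun x =>
    approx (huc.comp (by fun_prop)) (hper x) hepos
  choose G hGd hGa using hG
  -- choice of `s`
  have hs1 : ∀ᶠ s : ℝ in 𝓝[<] r, ∀ x ∈ t, ∀ θ : ℝ,
      ‖G x ((s / r : ℝ) * exp (θ * I)) - G x (exp (θ * I))‖ < e := by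
    rw [eventually_all_finite htfin]
    intro x _
    have h1 := (isCompact_closedBall (0 : ℂ) 1).uniformContinuousOn_of_continuous
      (hGd x).continuous.continuousOn
    rw [Metric.uniformContinuousOn_iff] at h1
    obtain ⟨ζ, hζ, h2⟩ := h1 e hepos
    have h3 : ∀ᶠ s : ℝ in 𝓝[<] r, |s / r - 1| < ζ := by
      have h4 : Tendsto (fun s : ℝ => |s / r - 1|) (𝓝 r) (𝓝 |r / r - 1|) :=
        Continuous.tendsto (by fun_prop) r
      rw [div_self hr.ne', sub_self, abs_zero] at h4
      exact nhdsWithin_le_nhds (h4.eventually (gt_mem_nhds hζ))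
    have h5 : ∀ᶠ s : ℝ in 𝓝[<] r, 0 < s := nhdsWithin_le_nhds (lt_mem_nhds hr)
    filter_upwards [h3, h5, self_mem_nhdsWithin] with s hs hs0 hsr θ
    have hsr' : s / r ≤ 1 := by
      rw [div_le_one hr]
      exact le_of_lt hsr
    have hn : ‖exp (θ * I)‖ = 1 := norm_exp_ofReal_mul_I θ
    rw [← dist_eq_norm]
    refine h2 _ ?_ _ ?_ ?_
    · rw [mem_closedBall_zero_iff, norm_mul, hn, mul_one, norm_real, Real.norm_eq_abs,
        abs_of_pos (by positivity)]
      exact hsr'
    · rw [mem_closedBall_zero_iff, hn]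
    · have : ((s / r : ℝ) : ℂ) * exp (θ * I) - exp (θ * I) =
          ((s / r - 1 : ℝ) : ℂ) * exp (θ * I) := by
        push_cast
        ring
      rw [dist_eq_norm, this, norm_mul, hn, mul_one, norm_real, Real.norm_eq_abs]
      exact hs
  have hs2 : ∀ᶠ s : ℝ in 𝓝[<] r, max (r / 2) (r - η) < s :=
    nhdsWithin_le_nhds (lt_mem_nhds (max_lt (by linarith) (by linarith)))
  obtain ⟨s, hsG, hs2, hsr⟩ := (hs1.and (hs2.and self_mem_nhdsWithin)).exists
  have hsr : s < r := hsr
  have hs3 : r / 2 < s := (le_max_left _ _).trans_lt hs2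
  have hs4 : r - η < s := (le_max_right _ _).trans_lt hs2
  have hs0 : 0 < s := by linarith
  have hd : 0 < r - s := by linarith
  set C : ℝ := r / (r - s) * (1 / (Real.pi * ρ ^ 2)) with hC
  have hCpos : 0 < C := by positivity
  refine ⟨s, hs3, hsr, ⌈C / δ⌉₊, ?_⟩
  intro n hn F hF hint
  have hCn : C ≤ Real.exp (n * δ) := by
    have h1 : C / δ ≤ n := (Nat.le_ceil _).trans (by exact_mod_cast hn)
    rw [div_le_iff₀ hδ] at h1
    have := Real.add_one_le_exp ((n : ℝ) * δ)
    linarith
  have hnδ : 0 ≤ (n : ℝ) * δ := by positivity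
  constructor
  · intro z w hz hw
    have hwr : ‖w‖ < r := hw.trans_lt hsr
    have h1 := key hF huc (H := fun _ => 0) (by fun_prop) (n := n) (r := r) (ρ := 1) (M := 1)
      one_pos zero_le_one (z₀ := z) (w := w) ?_ hwr ?_ hint
    · have h2 : ‖F (z, w)‖ ^ 2 ≤ C := by
        have h3 : ‖F (z, w)‖ ^ 2 * ‖exp (0 : ℂ)‖ ^ 2 = ‖F (z, w)‖ ^ 2 := by simp
        rw [h3] at h1
        refine h1.trans ?_
        rw [hC]
        have hd' : 0 < r - ‖w‖ := by linarith
        refine mul_le_mul ?_ ?_ (by positivity) (by positivity)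
        · exact div_le_div_of_nonneg_left hr.le hd (by linarith)
        · refine div_le_div_of_nonneg_left zero_le_one (by positivity) ?_
          refine mul_le_mul_of_nonneg_left ?_ Real.pi_pos.le
          have : ρ ≤ 1 := by linarith
          exact pow_le_pow_left₀ hρ.le this 2
      refine h2.trans (hCn.trans (Real.exp_le_exp.2 ?_))
      nlinarith
    · intro y hy
      rw [Metric.mem_closedBall, dist_eq_norm] at hy
      rw [mem_closedBall_zero_iff]
      calc ‖y‖ = ‖(y - z) + z‖ := by ring_nf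
        _ ≤ ‖y - z‖ + ‖z‖ := norm_add_le _ _
        _ ≤ 2 := by linarith
    · intro y _ θ
      have h3 : (1 : ℝ) ≤ Real.exp (2 * n * u (y, r * exp (θ * I))) := by
        rw [Real.one_le_exp_iff]
        have := hu0 (y, r * exp (θ * I))
        positivity
      simpa using h3
  · intro z w hz hw
    have hwr : ‖w‖ < r := by rw [hw]; exact hsr
    -- the centre
    obtain ⟨x, hxt, hzx⟩ : ∃ x ∈ t, dist z x < ρ := by
      have := hcov (mem_closedBall_zero_iff.2 hz)
      simpa using this
    have hx1 : ‖x‖ ≤ 1 := mem_closedBall_zero_iff.1 (htsub hxt)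
    have hw' : w = s * exp (arg w * I) := by
      rw [← hw, Complex.norm_mul_exp_arg_mul_I]
    set α : ℝ := arg w with hα
    have hnα : ∀ θ : ℝ, ‖exp (θ * I)‖ = 1 := fun θ => norm_exp_ofReal_mul_I θ
    have hmem : ∀ (y : ℂ) (q θ : ℝ), ‖y‖ ≤ 2 → 0 ≤ q → q ≤ 1 →
        ((y, (q : ℂ) * exp (θ * I)) : ℂ × ℂ) ∈
          Metric.closedBall (0 : ℂ) 2 ×ˢ Metric.closedBall (0 : ℂ) 1 := by
      intro y q θ hy h0 h1
      refine ⟨mem_closedBall_zero_iff.2 hy, mem_closedBall_zero_iff.2 ?_⟩
      show ‖(q : ℂ) * exp (θ * I)‖ ≤ 1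
      rw [norm_mul, hnα, mul_one, norm_real, Real.norm_eq_abs, abs_of_nonneg h0]
      exact h1
    -- lower bound for the real part
    have hlow : u (z, w) - 3 * e ≤ (G x (w / r)).re := by
      have h1 : w / r = ((s / r : ℝ) : ℂ) * exp (α * I) := by
        conv_lhs => rw [hw']
        push_cast
        ring
      have h2 := hsG x hxt α
      have h3 := (Complex.abs_re_le_norm _).trans_lt h2
      rw [← h1, sub_re] at h3
      have h4 := hGa x α
      have h5 := hmod (x, r * exp (α * I)) (hmem x r α (by linarith) hr.le hr1.le) (z, w)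
        (by
          rw [hw']
          exact hmem z s α (by linarith) hs0.le (by linarith)) (by
          rw [Prod.dist_eq]
          refine max_lt ?_ ?_
          · rw [dist_comm]
            show dist z x < η
            linarith
          · show dist ((r : ℂ) * exp (α * I)) w < η
            have h6 : (r : ℂ) * exp (α * I) - w = ((r - s : ℝ) : ℂ) * exp (α * I) := by
              conv_lhs => rw [hw']
              push_cast
              ring
            rw [dist_eq_norm, h6, norm_mul, hnα, mul_one, norm_real, Real.norm_eq_abs,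
              abs_of_pos hd]
            linarith)
      rw [Real.dist_eq] at h5
      rw [abs_lt] at h3 h5
      rw [abs_le] at h4
      linarith [h3.1, h4.1, h5.1]
    have h1 := key hF huc (H := fun w => n * G x (w / r))
      ((hGd x |>.comp (by fun_prop)).const_mul _) (n := n) (r := r) (ρ := ρ)
      (M := Real.exp (4 * n * e)) hρ (Real.exp_pos _).le (z₀ := z) (w := w) ?_ hwr ?_ hint
    · have h2 : ‖exp (n * G x (w / r))‖ ^ 2 = Real.exp (2 * n * (G x (w / r)).re) := by
        rw [Complex.norm_exp, ← Real.exp_nat_mul]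
        congr 1
        simp
        ring
      have h1 : ‖F (z, w)‖ ^ 2 * Real.exp (2 * n * (G x (w / r)).re) ≤
          r / (r - s) * (Real.exp (4 * n * e) / (Real.pi * ρ ^ 2)) := by
        rw [← h2, ← hw]
        exact h1
      have h3 : Real.exp (2 * n * (u (z, w) - 3 * e)) ≤ Real.exp (2 * n * (G x (w / r)).re) := by
        refine Real.exp_le_exp.2 (mul_le_mul_of_nonneg_left hlow (by positivity))
      have h4 : ‖F (z, w)‖ ^ 2 * Real.exp (2 * n * (u (z, w) - 3 * e)) ≤
          Real.exp (n * δ) * Real.exp (4 * n * e) := by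
        calc ‖F (z, w)‖ ^ 2 * Real.exp (2 * n * (u (z, w) - 3 * e))
            ≤ ‖F (z, w)‖ ^ 2 * Real.exp (2 * n * (G x (w / r)).re) :=
              mul_le_mul_of_nonneg_left h3 (by positivity)
          _ ≤ r / (r - s) * (Real.exp (4 * n * e) / (Real.pi * ρ ^ 2)) := h1
          _ = C * Real.exp (4 * n * e) := by rw [hC]; ring
          _ ≤ _ := mul_le_mul_of_nonneg_right hCn (Real.exp_pos _).le
      have h5 : ‖F (z, w)‖ ^ 2 = ‖F (z, w)‖ ^ 2 * Real.exp (2 * n * (u (z, w) - 3 * e)) *
          Real.exp (-(2 * n * (u (z, w) - 3 * e))) := by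
        rw [mul_assoc, ← Real.exp_add]
        simp
      rw [h5]
      refine (mul_le_mul_of_nonneg_right h4 (Real.exp_pos _).le).trans ?_
      rw [← Real.exp_add, ← Real.exp_add]
      refine Real.exp_le_exp.2 (le_of_eq ?_)
      rw [he]
      ring
    · intro y hy
      rw [Metric.mem_closedBall, dist_eq_norm] at hy
      rw [mem_closedBall_zero_iff]
      calc ‖y‖ = ‖(y - z) + z‖ := by ring_nf
        _ ≤ ‖y - z‖ + ‖z‖ := norm_add_le _ _
        _ ≤ 2 := by linarith
    · intro y hy θ
      have hy2 : ‖y‖ ≤ 2 := by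
        rw [Metric.mem_closedBall, dist_eq_norm] at hy
        calc ‖y‖ = ‖(y - z) + z‖ := by ring_nf
          _ ≤ ‖y - z‖ + ‖z‖ := norm_add_le _ _
          _ ≤ 2 := by linarith
      have h2 : ((r : ℂ) * exp (θ * I)) / r = exp (θ * I) := by
        have : (r : ℂ) ≠ 0 := by exact_mod_cast hr.ne'
        field_simp
      rw [h2, Complex.norm_exp, ← Real.exp_nat_mul, ← Real.exp_add]
      refine Real.exp_le_exp.2 ?_
      have h3 := hGa x θ
      have h5 := hmod (x, r * exp (θ * I)) (hmem x r θ (by linarith) hr.le hr1.le)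
        (y, r * exp (θ * I)) (hmem y r θ hy2 hr.le hr1.le) (by
          rw [Prod.dist_eq]
          refine max_lt ?_ ?_
          · show dist x y < η
            have h6 : dist y z ≤ ρ := hy
            have h7 := dist_triangle y z x
            rw [dist_comm x y]
            linarith
          · show dist ((r : ℂ) * exp (θ * I)) ((r : ℂ) * exp (θ * I)) < η
            rw [dist_self]
            exact hη)
      rw [Real.dist_eq, abs_lt] at h5
      rw [abs_le] at h3
      have h8 : (G x (exp (θ * I))).re ≤ u (y, r * exp (θ * I)) + 2 * e := by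
        linarith [h3.2, h5.2]
      have h9 : ((n : ℂ) * G x (exp (θ * I))).re = n * (G x (exp (θ * I))).re := by
        simp
      rw [h9]
      have h10 : (n : ℝ) * (G x (exp (θ * I))).re ≤ n * (u (y, r * exp (θ * I)) + 2 * e) :=
        mul_le_mul_of_nonneg_left h8 (Nat.cast_nonneg n)
      push_cast
      linarith

end CMA
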