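import Pool.Agent.Work.MP_4eb3f9_an_helper82.E1

/-!
# MP_4eb3f9_an, block E: the extension lemma
-/

open Complex MeasureTheory Filter Topology
open scoped ContDiff ComplexOrder

namespace CMA

open E

/-- The final arithmetic. -/
lemma E.arith {C₂ C₃ D X M n N : ℝ} (hC₂ : 0 ≤ C₂) (hC₃ : 0 ≤ C₃) (hD : 0 ≤ D) (hn : 1 ≤ n)
    (hX : X ≤ n) (hN1 : (1 + Real.sqrt D) * n ≤ N) (hN2 : N ≤ 2 * ((1 + Real.sqrt D) * n))
    (hM : M ≤ C₂ * N ^ 2 + C₂ * n ^ 2 * (4 * D) / (2 * Real.pi) + C₂ * N * X) :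
    1 / (2 * n) * (Real.pi / N * (M + 1) + C₃ * N) ≤
      (2 * Real.pi * C₂ + C₂ + Real.pi + C₃) * (1 + Real.sqrt D) := by
  have hpi := Real.pi_pos
  set α : ℝ := 1 + Real.sqrt D with hα
  have hs : 0 ≤ Real.sqrt D := Real.sqrt_nonneg D
  have hα1 : 1 ≤ α := by linarith
  have hn0 : 0 < n := by linarith
  have hαn : 1 ≤ α * n := by nlinarith
  have hN0 : 0 < N := by linarith
  have hN1' : 1 ≤ N := by linarith
  have hDα : D ≤ Real.sqrt D * α := by
    have := Real.mul_self_sqrt hD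
    rw [hα]
    nlinarith
  have h1 : 1 / (2 * n) * (Real.pi / N * (M + 1) + C₃ * N) ≤
      1 / (2 * n) * (Real.pi / N * (C₂ * N ^ 2 + C₂ * n ^ 2 * (4 * D) / (2 * Real.pi) +
        C₂ * N * X + 1) + C₃ * N) := by
    refine mul_le_mul_of_nonneg_left ?_ (by positivity)
    have : Real.pi / N * (M + 1) ≤ Real.pi / N * (C₂ * N ^ 2 +
        C₂ * n ^ 2 * (4 * D) / (2 * Real.pi) + C₂ * N * X + 1) :=
      mul_le_mul_of_nonneg_left (by linarith) (by positivity)
    linarith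
  have h2 : 1 / (2 * n) * (Real.pi / N * (C₂ * N ^ 2 + C₂ * n ^ 2 * (4 * D) / (2 * Real.pi) +
        C₂ * N * X + 1) + C₃ * N) =
      Real.pi * C₂ * (N / (2 * n)) + C₂ * (n * D / N) + Real.pi * C₂ * (X / (2 * n)) +
        Real.pi * (1 / (2 * n * N)) + C₃ * (N / (2 * n)) := by
    field_simp
    ring
  have h3 : N / (2 * n) ≤ α := by
    rw [div_le_iff₀ (by positivity)]
    linarith
  have h4 : n * D / N ≤ Real.sqrt D := by
    rw [div_le_iff₀ hN0]
    calc n * D ≤ n * (Real.sqrt D * α) := mul_le_mul_of_nonneg_left hDα hn0.le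
      _ = Real.sqrt D * (α * n) := by ring
      _ ≤ Real.sqrt D * N := mul_le_mul_of_nonneg_left hN1 hs
  have h5 : X / (2 * n) ≤ 1 := by
    rw [div_le_iff₀ (by positivity)]
    linarith
  have h6 : 1 / (2 * n * N) ≤ 1 := by
    rw [div_le_iff₀ (by positivity)]
    nlinarith
  rw [h2] at h1
  refine h1.trans ?_
  have k1 := mul_le_mul_of_nonneg_left h3 (mul_nonneg hpi.le hC₂)
  have k2 := mul_le_mul_of_nonneg_left h4 hC₂
  have k3 := mul_le_mul_of_nonneg_left h5 (mul_nonneg hpi.le hC₂)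
  have k4 := mul_le_mul_of_nonneg_left h6 hpi.le
  have k5 := mul_le_mul_of_nonneg_left h3 hC₃
  have k6 : C₂ * Real.sqrt D ≤ C₂ * α := mul_le_mul_of_nonneg_left (by linarith) hC₂
  have k7 : Real.pi * C₂ * 1 ≤ Real.pi * C₂ * α :=
    mul_le_mul_of_nonneg_left hα1 (mul_nonneg hpi.le hC₂)
  have k8 : Real.pi * 1 ≤ Real.pi * α := mul_le_mul_of_nonneg_left hα1 hpi.le
  have k9 : (2 * Real.pi * C₂ + C₂ + Real.pi + C₃) * α =
      Real.pi * C₂ * α + Real.pi * C₂ * α + C₂ * α + Real.pi * α + C₃ * α := by ring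
  rw [k9]
  linarith

theorem stmt_E (hA : Stmt_A) (hB2 : Stmt_B2) (hB3 : Stmt_B3) (hB4 : Stmt_B4) (hT3 : Stmt_T3) :
    Stmt_E := by
  obtain ⟨hPD, C₂, hC₂, hdet⟩ := hB2
  obtain ⟨C₃, hC₃, hHad⟩ := hB3
  obtain ⟨-, -, hlog⟩ := hT3
  have hpi := Real.pi_pos
  refine ⟨2 * Real.pi * C₂ + C₂ + Real.pi + C₃, by positivity, ?_⟩
  intro u r δ hu hu0 hsupp hcs hr hr1 hδ
  set D : ℝ := ∫ θ in (0 : ℝ)..(2 * Real.pi), ∫ z, gz u (z, r * Complex.exp (θ * Complex.I))
    with hDdef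
  have hD : 0 ≤ D := by
    refine intervalIntegral.integral_nonneg Real.two_pi_pos.le fun θ _ => ?_
    exact integral_nonneg fun z => gz_nonneg _ _
  -- bounds of `u`
  obtain ⟨U, hU⟩ := hcs.exists_bound_of_continuous hu.continuous
  have hUu : ∀ p, u p ≤ U := fun p => (le_abs_self _).trans (hU p)
  obtain ⟨Λ, hΛ⟩ := hu.lipschitzWith_of_hasCompactSupport hcs (by simp)
  have hLip : ∀ θ : ℝ, ∀ z w : ℂ, |sl u r θ z - sl u r θ w| ≤ (Λ : ℝ) * ‖z - w‖ := by
    intro θ z w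
    have h1 := hΛ.dist_le_mul (z, r * exp (θ * I)) (w, r * exp (θ * I))
    rw [Real.dist_eq, Prod.dist_eq] at h1
    simp only [dist_self] at h1
    rw [max_eq_left dist_nonneg, dist_eq_norm] at h1
    exact h1
  have hz0 : ∀ θ : ℝ, ∀ z : ℂ, 1 ≤ ‖z‖ → sl u r θ z = 0 := by
    intro θ z hz
    by_contra hne
    exact absurd (hsupp _ hne).1 (by simpa using hz)
  -- choice of `n` and `N`
  obtain ⟨s, hs1, hs2, n₀, hB⟩ := hB4 u r (δ / 2) hu hu0 hr hr1 (by positivity)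
  obtain ⟨n, hn0, hn1, hnδ, hnΛ⟩ : ∃ n : ℕ, n₀ ≤ n ∧ 1 ≤ n ∧ 1 / δ ≤ n ∧
      2 * (1 + (Λ : ℝ)) ≤ n := by
    refine ⟨max n₀ (max 1 (max ⌈1 / δ⌉₊ ⌈2 * (1 + (Λ : ℝ))⌉₊)), le_max_left _ _,
      (le_max_left _ _).trans (le_max_right _ _), ?_, ?_⟩
    · refine (Nat.le_ceil _).trans (Nat.cast_le.2 ?_)
      exact (le_max_left _ _).trans ((le_max_right _ _).trans (le_max_right _ _))
    · refine (Nat.le_ceil _).trans (Nat.cast_le.2 ?_)
      exact (le_max_right _ _).trans ((le_max_right _ _).trans (le_max_right _ _))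
  have hn1' : (1 : ℝ) ≤ n := by exact_mod_cast hn1
  have hn0' : (0 : ℝ) < n := by linarith
  have hnδ' : 1 ≤ n * δ := by
    rw [div_le_iff₀ hδ] at hnδ
    exact hnδ
  have hexp2 : 2 ≤ Real.exp (n * δ) := by
    have := Real.add_one_le_exp ((n : ℝ) * δ)
    linarith
  have hX : 1 + Real.log n + (Λ : ℝ) ≤ n := by
    have h1 : Real.log (n / 2) ≤ n / 2 - 1 := Real.log_le_sub_one_of_pos (by positivity)
    rw [Real.log_div hn0'.ne' (by norm_num)] at h1
    have h2 : Real.log 2 ≤ 1 := by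
      have := Real.log_two_lt_d9
      linarith
    linarith
  set N : ℕ := ⌈(1 + Real.sqrt D) * n⌉₊ with hNdef
  have hs : 0 ≤ Real.sqrt D := Real.sqrt_nonneg D
  have hαn : 1 ≤ (1 + Real.sqrt D) * (n : ℝ) := by nlinarith
  have hNlow : (1 + Real.sqrt D) * n ≤ N := Nat.le_ceil _
  have hNup : (N : ℝ) ≤ 2 * ((1 + Real.sqrt D) * n) := by
    have := Nat.ceil_lt_add_one (show 0 ≤ (1 + Real.sqrt D) * (n : ℝ) by positivity)
    linarith
  have hN1 : 1 ≤ N := by
    have : (1 : ℝ) ≤ N := hαn.trans hNlow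
    exact_mod_cast this
  -- the Gram matrices
  set W : ℝ → Matrix (Fin N) (Fin N) ℂ := fun θ => gram N n (sl u r θ) with hW
  have hWc : Continuous W := cont_gram hu r N n
  have hWp : ∀ θ, W (θ + 2 * Real.pi) = W θ := fun θ => by
    simp only [hW, sl_periodic]
  have hWpd : ∀ θ, (W θ).PosDef := fun θ => hPD _ n N (sl_contDiff hu r θ).continuous
  have hdetpos : ∀ θ, 0 < (W θ).det.re := fun θ => by
    have := (hWpd θ).det_pos
    exact (Complex.pos_iff.1 this).1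
  have hlogc : Continuous fun θ => Real.log (W θ).det.re := by
    have h1 : Continuous fun θ => (W θ).det.re := Complex.continuous_re.comp hWc.matrix_det
    exact h1.log fun θ => (hdetpos θ).ne'
  have hIdet : (∫ θ in (0 : ℝ)..(2 * Real.pi), Real.log (W θ).det.re) / (2 * Real.pi) ≤
      C₂ * (N : ℝ) ^ 2 + C₂ * (n : ℝ) ^ 2 * (4 * D) / (2 * Real.pi) +
        C₂ * N * (1 + Real.log n + Λ) := by
    have hdc : Continuous fun θ : ℝ => dirE (sl u r θ) := by
      simp only [dirE_sl hu]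
      exact continuous_const.mul (cont_int_gz hu hsupp r)
    have h1 : (∫ θ in (0 : ℝ)..(2 * Real.pi), Real.log (W θ).det.re) ≤
        ∫ θ in (0 : ℝ)..(2 * Real.pi), (C₂ * (N : ℝ) ^ 2 + C₂ * (n : ℝ) ^ 2 * dirE (sl u r θ) +
          C₂ * N * (1 + Real.log n + Λ)) := by
      refine intervalIntegral.integral_mono_on Real.two_pi_pos.le
        (hlogc.intervalIntegrable _ _) ?_ fun θ _ => ?_
      · refine Continuous.intervalIntegrable ?_ _ _
        exact (continuous_const.add (continuous_const.mul hdc)).add continuous_const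
      · exact hdet (sl u r θ) Λ n N (sl_contDiff hu r θ) (hz0 θ) (hLip θ) Λ.2 hn1
    have h2 : (∫ θ in (0 : ℝ)..(2 * Real.pi), (C₂ * (N : ℝ) ^ 2 +
        C₂ * (n : ℝ) ^ 2 * dirE (sl u r θ) + C₂ * N * (1 + Real.log n + Λ))) =
        2 * Real.pi * (C₂ * (N : ℝ) ^ 2) + C₂ * (n : ℝ) ^ 2 * (4 * D) +
          2 * Real.pi * (C₂ * N * (1 + Real.log n + Λ)) := by
      have hi : IntervalIntegrable (fun θ => C₂ * (n : ℝ) ^ 2 * dirE (sl u r θ)) volume 0
          (2 * Real.pi) := (continuous_const.mul hdc).intervalIntegrable _ _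
      rw [intervalIntegral.integral_add (by
          exact (intervalIntegrable_const).add hi) intervalIntegrable_const,
        intervalIntegral.integral_add intervalIntegrable_const hi]
      simp only [dirE_sl hu, intervalIntegral.integral_const_mul, intervalIntegral.integral_const,
        smul_eq_mul, sub_zero]
      rw [← hDdef]
      ring
    rw [h2] at h1
    rw [div_le_iff₀ Real.two_pi_pos]
    refine h1.trans (le_of_eq ?_)
    field_simp
  -- the matrices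
  obtain ⟨d, E, hE1, hE2⟩ := hA N W hWc hWp hWpd 1 one_pos
  have hdet0 : (E 0).det ≠ 0 := by
    intro h0
    rw [h0] at hE2
    have := Real.exp_pos (-(∫ θ in (0 : ℝ)..(2 * Real.pi), Real.log (W θ).det.re) /
      (2 * Real.pi) - 1)
    simp at hE2
    linarith
  have hlogdet : -((∫ θ in (0 : ℝ)..(2 * Real.pi), Real.log (W θ).det.re) / (2 * Real.pi)) - 1 ≤
      Real.log (‖(E 0).det‖ ^ 2) := by
    rw [Real.le_log_iff_exp_le (by positivity), ← neg_div]
    exact hE2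
  -- bounds for the combinations
  have hbound : ∀ a : Fin N → ℂ, ∑ i, ‖a i‖ ^ 2 ≤ 1 →
      (∀ z w : ℂ, ‖z‖ ≤ 1 → ‖w‖ ≤ s →
        ‖∑ j, a j * Fj E r j (z, w)‖ ^ 2 ≤ Real.exp (2 * n * (δ / 2))) ∧
      (∀ z w : ℂ, ‖z‖ ≤ 1 → ‖w‖ = s →
        ‖∑ j, a j * Fj E r j (z, w)‖ ^ 2 ≤ Real.exp (2 * n * (δ / 2 - u (z, w)))) := by
    intro a ha
    refine hB n hn0 (fun p => ∑ j, a j * Fj E r j p) ?_ ?_
    · exact ContDiff.sum fun j _ => contDiff_const.mul (Fj_contDiff E r j)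
    · refine le_trans (le_of_eq ?_) ((hE1 a).trans ?_)
      · refine intervalIntegral.integral_congr fun θ _ => ?_
        simp only [hW, Fj_circle E hr.ne']
        rw [gram_form (sl_contDiff hu r θ).continuous, ofReal_re]
        rfl
      · calc 2 * Real.pi * ∑ i, ‖a i‖ ^ 2 ≤ 2 * Real.pi * 1 :=
            mul_le_mul_of_nonneg_left ha Real.two_pi_pos.le
          _ = _ := mul_one _
  have hsum1 : ∀ z w : ℂ, ‖z‖ ≤ 1 → ‖w‖ ≤ s →
      ∑ j, ‖Fj E r j (z, w)‖ ^ 2 ≤ Real.exp (n * δ) := by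
    intro z w hz hw
    refine sum_sq_le _ (Real.exp_pos _).le fun a ha => ?_
    have := (hbound a ha).1 z w hz hw
    rwa [show 2 * (n : ℝ) * (δ / 2) = n * δ by ring] at this
  have hsum2 : ∀ z w : ℂ, ‖z‖ ≤ 1 → ‖w‖ = s →
      ∑ j, ‖Fj E r j (z, w)‖ ^ 2 ≤ Real.exp (n * δ - 2 * n * u (z, w)) := by
    intro z w hz hw
    refine sum_sq_le _ (Real.exp_pos _).le fun a ha => ?_
    have := (hbound a ha).2 z w hz hw
    rwa [show 2 * (n : ℝ) * (δ / 2 - u (z, w)) = n * δ - 2 * n * u (z, w) by ring] at this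
  -- the function
  set ε' : ℝ := Real.exp (-(2 * n * U)) with hε'
  have hε'pos : 0 < ε' := Real.exp_pos _
  have hspos : 0 < s := by linarith
  have h2n : 0 < 1 / (2 * (n : ℝ)) := by positivity
  refine ⟨fun p => 1 / (2 * (n : ℝ)) * Real.log (ε' + ∑ j, ‖Fj E r j p‖ ^ 2), s,
    hlog N (Fj E r) ε' (1 / (2 * (n : ℝ))) hε'pos h2n.le (Fj_contDiff E r), hspos, hs2, ?_, ?_, ?_⟩
  · rintro ⟨z, w⟩ hz hw
    simp only at hz hw ⊢
    have hpos : 0 < ε' + ∑ j, ‖Fj E r j (z, w)‖ ^ 2 :=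
      add_pos_of_pos_of_nonneg hε'pos (Finset.sum_nonneg fun _ _ => by positivity)
    have hU0 : 0 ≤ U := (hu0 0).trans (hUu 0)
    have h1 : ε' ≤ Real.exp (n * δ) := by
      refine Real.exp_le_exp.2 ?_
      have : 0 ≤ 2 * (n : ℝ) * U := by positivity
      linarith
    have h2 : ε' + ∑ j, ‖Fj E r j (z, w)‖ ^ 2 ≤ Real.exp (2 * n * δ) := by
      have h3 := hsum1 z w hz hw
      have h4 : Real.exp (2 * n * δ) = Real.exp (n * δ) * Real.exp (n * δ) := by
        rw [← Real.exp_add]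
        congr 1
        ring
      rw [h4]
      nlinarith [Real.exp_pos (n * δ)]
    have h3 : Real.log (ε' + ∑ j, ‖Fj E r j (z, w)‖ ^ 2) ≤ 2 * n * δ :=
      (Real.log_le_iff_le_exp hpos).2 h2
    rw [div_mul_eq_mul_div, one_mul, div_le_iff₀ (by positivity)]
    linarith
  · rintro ⟨z, w⟩ hz hw
    simp only at hz hw ⊢
    have hpos : 0 < ε' + ∑ j, ‖Fj E r j (z, w)‖ ^ 2 :=
      add_pos_of_pos_of_nonneg hε'pos (Finset.sum_nonneg fun _ _ => by positivity)
    have h1 : ε' ≤ Real.exp (n * δ - 2 * n * u (z, w)) := by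
      refine Real.exp_le_exp.2 ?_
      have : 2 * (n : ℝ) * u (z, w) ≤ 2 * n * U :=
        mul_le_mul_of_nonneg_left (hUu _) (by positivity)
      linarith
    have h2 : ε' + ∑ j, ‖Fj E r j (z, w)‖ ^ 2 ≤ Real.exp (2 * n * (δ - u (z, w))) := by
      have h3 := hsum2 z w hz hw
      have h4 : Real.exp (2 * n * (δ - u (z, w))) =
          Real.exp (n * δ) * Real.exp (n * δ - 2 * n * u (z, w)) := by
        rw [← Real.exp_add]
        congr 1
        ring
      rw [h4]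
      nlinarith [Real.exp_pos (n * δ - 2 * n * u (z, w))]
    have h3 : Real.log (ε' + ∑ j, ‖Fj E r j (z, w)‖ ^ 2) ≤ 2 * n * (δ - u (z, w)) :=
      (Real.log_le_iff_le_exp hpos).2 h2
    rw [div_mul_eq_mul_div, one_mul, div_le_iff₀ (by positivity)]
    linarith
  · have h1 := hHad N (E 0) ε' hN1 hdet0 hε'pos
    have h2 : (∫ z in Metric.ball (0 : ℂ) 1,
        1 / (2 * (n : ℝ)) * Real.log (ε' + ∑ j, ‖Fj E r j (z, 0)‖ ^ 2)) =
        1 / (2 * (n : ℝ)) * ∫ z in Metric.ball (0 : ℂ) 1,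
          Real.log (ε' + ∑ j : Fin N, ‖∑ k : Fin N, z ^ (k : ℕ) * E 0 k j‖ ^ 2) := by
      rw [integral_const_mul]
      simp only [Fj_zero]
    rw [h2]
    have h3 : -(1 / (2 * (n : ℝ)) * ∫ z in Metric.ball (0 : ℂ) 1,
          Real.log (ε' + ∑ j : Fin N, ‖∑ k : Fin N, z ^ (k : ℕ) * E 0 k j‖ ^ 2)) ≤
        1 / (2 * (n : ℝ)) * (Real.pi / N * ((∫ θ in (0 : ℝ)..(2 * Real.pi),
          Real.log (W θ).det.re) / (2 * Real.pi) + 1) + C₃ * N) := by
      rw [← mul_neg]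
      refine mul_le_mul_of_nonneg_left ?_ h2n.le
      have h4 : Real.pi / N * (-((∫ θ in (0 : ℝ)..(2 * Real.pi), Real.log (W θ).det.re) /
          (2 * Real.pi)) - 1) ≤ Real.pi / N * Real.log (‖(E 0).det‖ ^ 2) :=
        mul_le_mul_of_nonneg_left hlogdet (by positivity)
      linarith
    refine h3.trans ?_
    exact CMA.E.arith hC₂ hC₃ hD hn1' hX hNlow hNup hIdet

end CMA
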