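import Pool.Agent.Work.MP_4eb3f9_an.Interface

/-!
# MP_4eb3f9_an, block B4, part a: mean value inequalities
-/

open Complex MeasureTheory Filter Topology
open scoped ContDiff ComplexOrder

namespace CMA.B4

/-- Cauchy's formula for the square of an entire function. -/
lemma cauchy_sq {Φ : ℂ → ℂ} (hΦ : Differentiable ℂ Φ) {r : ℝ} {w : ℂ} (hw : ‖w‖ < r) :
    ‖Φ w‖ ^ 2 ≤ r / (r - ‖w‖) *
      ((2 * Real.pi)⁻¹ * ∫ θ in (0 : ℝ)..(2 * Real.pi), ‖Φ (r * exp (θ * I))‖ ^ 2) := by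
  have hr : 0 < r := (norm_nonneg w).trans_lt hw
  have hd : 0 < r - ‖w‖ := sub_pos.2 hw
  have hf : DiffContOnCl ℂ (fun z => Φ z ^ 2) (Metric.ball 0 r) := (hΦ.pow 2).diffContOnCl
  have hc := hf.circleIntegral_sub_inv_smul (w := w) (by simpa using hw)
  have h1 : ‖∮ z in C(0, r), (z - w)⁻¹ • Φ z ^ 2‖ = 2 * Real.pi * ‖Φ w‖ ^ 2 := by
    rw [hc, norm_smul, norm_pow]
    simp [abs_of_pos Real.pi_pos]
  have h2 : ‖∮ z in C(0, r), (z - w)⁻¹ • Φ z ^ 2‖ ≤
      ∫ θ in (0 : ℝ)..(2 * Real.pi), r / (r - ‖w‖) * ‖Φ (r * exp (θ * I))‖ ^ 2 := by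
    rw [circleIntegral]
    refine (intervalIntegral.norm_integral_le_integral_norm Real.two_pi_pos.le).trans ?_
    have hcont : Continuous fun θ : ℝ => Φ (r * exp (θ * I)) :=
      hΦ.continuous.comp (by fun_prop)
    refine intervalIntegral.integral_mono_on Real.two_pi_pos.le ?_ ?_ ?_
    · refine Continuous.intervalIntegrable ?_ _ _
      refine Continuous.norm ?_
      simp only [deriv_circleMap, smul_eq_mul]
      have hcm : Continuous (circleMap 0 r) := continuous_circleMap 0 r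
      refine (hcm.mul continuous_const).mul (Continuous.mul ?_ ((hΦ.continuous.comp hcm).pow 2))
      refine Continuous.inv₀ (hcm.sub continuous_const) ?_
      intro θ h0
      have : circleMap 0 r θ = w := sub_eq_zero.1 h0
      have h3 : ‖circleMap 0 r θ‖ = r := by simp [abs_of_pos hr]
      rw [this] at h3
      exact hw.ne h3
    · exact (continuous_const.mul (hcont.norm.pow 2)).intervalIntegrable _ _
    · intro θ _
      have h3 : circleMap 0 r θ = r * exp (θ * I) := by simp [circleMap]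
      rw [norm_smul, norm_smul, norm_inv, deriv_circleMap, h3, norm_pow]
      have h4 : ‖(r : ℂ) * exp (θ * I)‖ = r := by
        rw [norm_mul, norm_exp_ofReal_mul_I]
        simp [abs_of_pos hr]
      have h5 : r - ‖w‖ ≤ ‖(r : ℂ) * exp (θ * I) - w‖ := by
        have := norm_sub_norm_le ((r : ℂ) * exp (θ * I)) w
        rwa [h4] at this
      rw [norm_mul, h4, norm_I, mul_one, ← mul_assoc, div_eq_mul_inv]
      refine mul_le_mul_of_nonneg_right ?_ (by positivity)
      exact mul_le_mul_of_nonneg_left (inv_anti₀ hd h5) hr.le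
  rw [h1, intervalIntegral.integral_const_mul] at h2
  have h3 : 0 < 2 * Real.pi := Real.two_pi_pos
  calc ‖Φ w‖ ^ 2 = (2 * Real.pi)⁻¹ * (2 * Real.pi * ‖Φ w‖ ^ 2) := by
        rw [← mul_assoc, inv_mul_cancel₀ h3.ne', one_mul]
    _ ≤ (2 * Real.pi)⁻¹ * (r / (r - ‖w‖) *
        ∫ θ in (0 : ℝ)..(2 * Real.pi), ‖Φ (r * exp (θ * I))‖ ^ 2) :=
        mul_le_mul_of_nonneg_left h2 (inv_nonneg.2 h3.le)
    _ = _ := by ring

/-- Sub-mean value property over discs. -/
lemma area_mean {Φ : ℂ → ℂ} (hΦ : Differentiable ℂ Φ) (z₀ : ℂ) {ρ : ℝ} (hρ : 0 < ρ) :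
    Real.pi * ρ ^ 2 * ‖Φ z₀‖ ^ 2 ≤ ∫ z in Metric.closedBall z₀ ρ, ‖Φ z‖ ^ 2 := by
  have hc := hΦ.continuous
  -- pointwise
  have h1 : ∀ z : ℂ, ‖Φ z₀‖ ^ 2 ≤
      (2 * Real.pi)⁻¹ * ∫ θ in (0 : ℝ)..(2 * Real.pi), ‖Φ (z₀ + exp (θ * I) * z)‖ ^ 2 := by
    intro z
    have hd : Differentiable ℂ fun ζ : ℂ => Φ (z₀ + ζ * z) :=
      hΦ.comp (by fun_prop)
    have := cauchy_sq hd (r := 1) (w := 0) (by simp)
    simpa using this
  have hK : IsCompact (Metric.closedBall (0 : ℂ) ρ) := isCompact_closedBall 0 ρ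
  -- translate
  have h2 : ∫ z in Metric.closedBall z₀ ρ, ‖Φ z‖ ^ 2 =
      ∫ z in Metric.closedBall (0 : ℂ) ρ, ‖Φ (z₀ + z)‖ ^ 2 := by
    have hmp : MeasurePreserving (fun z : ℂ => z₀ + z) volume volume :=
      measurePreserving_add_left volume z₀
    have hemb : MeasurableEmbedding (fun z : ℂ => z₀ + z) :=
      (MeasurableEquiv.addLeft z₀).measurableEmbedding
    have := hmp.setIntegral_preimage_emb hemb (fun z => ‖Φ z‖ ^ 2) (Metric.closedBall z₀ ρ)
    rw [← this]
    congr 2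
    ext z
    simp
  -- rotate
  have h3 : ∀ θ : ℝ, ∫ z in Metric.closedBall (0 : ℂ) ρ, ‖Φ (z₀ + exp (θ * I) * z)‖ ^ 2 =
      ∫ z in Metric.closedBall (0 : ℂ) ρ, ‖Φ (z₀ + z)‖ ^ 2 := by
    intro θ
    set e : ℂ ≃ₗᵢ[ℝ] ℂ := rotation (Circle.exp θ) with he
    have hmp : MeasurePreserving e volume volume := e.measurePreserving
    have hemb : MeasurableEmbedding e := e.toHomeomorph.measurableEmbedding
    have := hmp.setIntegral_preimage_emb hemb (fun z => ‖Φ (z₀ + z)‖ ^ 2)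
      (Metric.closedBall (0 : ℂ) ρ)
    rw [← this]
    have hpre : e ⁻¹' Metric.closedBall (0 : ℂ) ρ = Metric.closedBall (0 : ℂ) ρ := by
      ext z
      simp
    rw [hpre]
    refine setIntegral_congr_fun measurableSet_closedBall fun z _ => ?_
    simp [he, rotation_apply]
  have hcont : Continuous fun p : ℂ × ℝ => ‖Φ (z₀ + exp (p.2 * I) * p.1)‖ ^ 2 :=
    (hc.comp (by fun_prop)).norm.pow 2
  have h5 : Continuous (Function.uncurry fun (z : ℂ) (θ : ℝ) =>
      ‖Φ (z₀ + exp (θ * I) * z)‖ ^ 2) := hcont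
  -- Fubini
  have h4 : ∫ z in Metric.closedBall (0 : ℂ) ρ,
      ∫ θ in (0 : ℝ)..(2 * Real.pi), ‖Φ (z₀ + exp (θ * I) * z)‖ ^ 2 =
      ∫ θ in (0 : ℝ)..(2 * Real.pi), ∫ z in Metric.closedBall (0 : ℂ) ρ,
        ‖Φ (z₀ + exp (θ * I) * z)‖ ^ 2 := by
    simp only [intervalIntegral.integral_of_le Real.two_pi_pos.le]
    rw [integral_integral_swap]
    rw [Measure.prod_restrict]
    refine IntegrableOn.mono_set (t := Metric.closedBall (0 : ℂ) ρ ×ˢ Set.Icc 0 (2 * Real.pi)) ?_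
      (Set.prod_mono le_rfl Set.Ioc_subset_Icc_self)
    exact h5.continuousOn.integrableOn_compact (hK.prod isCompact_Icc)
  have h6 : ∫ z in Metric.closedBall (0 : ℂ) ρ, ‖Φ z₀‖ ^ 2 ≤
      ∫ z in Metric.closedBall (0 : ℂ) ρ, (2 * Real.pi)⁻¹ *
        ∫ θ in (0 : ℝ)..(2 * Real.pi), ‖Φ (z₀ + exp (θ * I) * z)‖ ^ 2 := by
    refine setIntegral_mono_on ?_ ?_ measurableSet_closedBall fun z _ => h1 z
    · exact continuous_const.continuousOn.integrableOn_compact hK
    · refine ContinuousOn.integrableOn_compact hK (Continuous.continuousOn ?_)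
      exact continuous_const.mul
        (intervalIntegral.continuous_parametric_intervalIntegral_of_continuous' h5 _ _)
  rw [integral_const_mul, h4] at h6
  simp only [h3] at h6
  rw [intervalIntegral.integral_const, setIntegral_const] at h6
  have hvol : (volume : Measure ℂ).real (Metric.closedBall (0 : ℂ) ρ) = Real.pi * ρ ^ 2 := by
    rw [Measure.real, Complex.volume_closedBall]
    simp [ENNReal.toReal_mul, hρ.le]
    ring
  rw [hvol, smul_eq_mul, smul_eq_mul, sub_zero, ← mul_assoc,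
    inv_mul_cancel₀ Real.two_pi_pos.ne', one_mul] at h6
  rw [h2]
  exact h6

/-- Both mean value inequalities together, with a weight. -/
lemma key {F : ℂ × ℂ → ℂ} (hF : ContDiff ℂ ∞ F) {u : ℂ × ℂ → ℝ} (hu : Continuous u) {H : ℂ → ℂ}
    (hH : Differentiable ℂ H) {n : ℕ} {r ρ M : ℝ} (hρ : 0 < ρ) (hM : 0 ≤ M)
    {z₀ w : ℂ} (hsub : Metric.closedBall z₀ ρ ⊆ Metric.closedBall 0 2) (hw : ‖w‖ < r)
    (hb : ∀ z ∈ Metric.closedBall z₀ ρ, ∀ θ : ℝ, ‖exp (H (r * exp (θ * I)))‖ ^ 2 ≤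
      M * Real.exp (2 * n * u (z, r * exp (θ * I))))
    (hint : (∫ θ in (0 : ℝ)..(2 * Real.pi), ∫ z in Metric.closedBall (0 : ℂ) 2,
        ‖F (z, r * exp (θ * I))‖ ^ 2 * Real.exp (2 * n * u (z, r * exp (θ * I)))) ≤
        2 * Real.pi) :
    ‖F (z₀, w)‖ ^ 2 * ‖exp (H w)‖ ^ 2 ≤ r / (r - ‖w‖) * (M / (Real.pi * ρ ^ 2)) := by
  have hr : 0 < r := (norm_nonneg w).trans_lt hw
  have hd : 0 < r - ‖w‖ := sub_pos.2 hw
  have hFd : Differentiable ℂ F := hF.differentiable (by simp)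
  have hFc : Continuous F := hF.continuous
  have hHc : Continuous H := hH.continuous
  have hpr : 0 < Real.pi * ρ ^ 2 := by positivity
  have h1 := cauchy_sq (Φ := fun w => F (z₀, w) * exp (H w))
    ((hFd.comp (by fun_prop)).mul hH.cexp) hw
  have h2 : ∀ θ : ℝ, ‖F (z₀, r * exp (θ * I)) * exp (H (r * exp (θ * I)))‖ ^ 2 ≤
      (Real.pi * ρ ^ 2)⁻¹ * (M * ∫ z in Metric.closedBall (0 : ℂ) 2,
        ‖F (z, r * exp (θ * I))‖ ^ 2 * Real.exp (2 * n * u (z, r * exp (θ * I)))) := by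
    intro θ
    have h3 := area_mean (Φ := fun z => F (z, r * exp (θ * I)) * exp (H (r * exp (θ * I))))
      ((hFd.comp (by fun_prop)).mul (by fun_prop)) z₀ hρ
    have h4 : ∫ z in Metric.closedBall z₀ ρ,
        ‖F (z, r * exp (θ * I)) * exp (H (r * exp (θ * I)))‖ ^ 2 ≤
        ∫ z in Metric.closedBall z₀ ρ, M * (‖F (z, r * exp (θ * I))‖ ^ 2 *
          Real.exp (2 * n * u (z, r * exp (θ * I)))) := by
      refine setIntegral_mono_on ?_ ?_ measurableSet_closedBall fun z hz => ?_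
      · refine ContinuousOn.integrableOn_compact (isCompact_closedBall _ _)
          (Continuous.continuousOn ?_)
        fun_prop
      · refine ContinuousOn.integrableOn_compact (isCompact_closedBall _ _)
          (Continuous.continuousOn ?_)
        fun_prop
      · rw [norm_mul, mul_pow]
        calc ‖F (z, r * exp (θ * I))‖ ^ 2 * ‖exp (H (r * exp (θ * I)))‖ ^ 2
            ≤ ‖F (z, r * exp (θ * I))‖ ^ 2 * (M * Real.exp (2 * n * u (z, r * exp (θ * I)))) :=
              mul_le_mul_of_nonneg_left (hb z hz θ) (by positivity)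
          _ = _ := by ring
    have h5 : ∫ z in Metric.closedBall z₀ ρ, M * (‖F (z, r * exp (θ * I))‖ ^ 2 *
          Real.exp (2 * n * u (z, r * exp (θ * I)))) ≤
        ∫ z in Metric.closedBall (0 : ℂ) 2, M * (‖F (z, r * exp (θ * I))‖ ^ 2 *
          Real.exp (2 * n * u (z, r * exp (θ * I)))) := by
      refine setIntegral_mono_set ?_ ?_ (LE.le.eventuallyLE hsub)
      · refine ContinuousOn.integrableOn_compact (isCompact_closedBall _ _)
          (Continuous.continuousOn ?_)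
        fun_prop
      · exact Eventually.of_forall fun z => by positivity
    rw [integral_const_mul] at h4
    rw [integral_const_mul, integral_const_mul] at h5
    rw [← div_eq_inv_mul, le_div_iff₀' hpr]
    exact h3.trans (h4.trans h5)
  have h6 : (∫ θ in (0 : ℝ)..(2 * Real.pi),
      ‖F (z₀, r * exp (θ * I)) * exp (H (r * exp (θ * I)))‖ ^ 2) ≤
      ∫ θ in (0 : ℝ)..(2 * Real.pi), (Real.pi * ρ ^ 2)⁻¹ * (M *
        ∫ z in Metric.closedBall (0 : ℂ) 2,
        ‖F (z, r * exp (θ * I))‖ ^ 2 * Real.exp (2 * n * u (z, r * exp (θ * I)))) := by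
    refine intervalIntegral.integral_mono_on Real.two_pi_pos.le ?_ ?_ fun θ _ => h2 θ
    · refine Continuous.intervalIntegrable ?_ _ _
      fun_prop
    · refine Continuous.intervalIntegrable ?_ _ _
      refine continuous_const.mul (continuous_const.mul ?_)
      have hc : Continuous (Function.uncurry fun (θ : ℝ) (z : ℂ) =>
          ‖F (z, r * exp (θ * I))‖ ^ 2 * Real.exp (2 * n * u (z, r * exp (θ * I)))) := by
        have : Continuous fun p : ℝ × ℂ =>
            ‖F (p.2, r * exp (p.1 * I))‖ ^ 2 * Real.exp (2 * n * u (p.2, r * exp (p.1 * I))) := by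
          fun_prop
        exact this
      exact continuous_parametric_integral_of_continuous hc (isCompact_closedBall (0 : ℂ) 2)
  rw [intervalIntegral.integral_const_mul, intervalIntegral.integral_const_mul] at h6
  have h7 : (Real.pi * ρ ^ 2)⁻¹ * (M * ∫ θ in (0 : ℝ)..(2 * Real.pi),
      ∫ z in Metric.closedBall (0 : ℂ) 2,
        ‖F (z, r * exp (θ * I))‖ ^ 2 * Real.exp (2 * n * u (z, r * exp (θ * I)))) ≤
      (Real.pi * ρ ^ 2)⁻¹ * (M * (2 * Real.pi)) := by
    refine mul_le_mul_of_nonneg_left (mul_le_mul_of_nonneg_left hint hM) (by positivity)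
  calc ‖F (z₀, w)‖ ^ 2 * ‖exp (H w)‖ ^ 2 = ‖F (z₀, w) * exp (H w)‖ ^ 2 := by
        rw [norm_mul, mul_pow]
    _ ≤ _ := h1
    _ ≤ r / (r - ‖w‖) * ((2 * Real.pi)⁻¹ * ((Real.pi * ρ ^ 2)⁻¹ * (M * (2 * Real.pi)))) := by
        refine mul_le_mul_of_nonneg_left ?_ (by positivity)
        refine mul_le_mul_of_nonneg_left (h6.trans h7) ?_
        exact inv_nonneg.2 Real.two_pi_pos.le
    _ = _ := by
        have := Real.pi_ne_zero
        field_simp

end CMA.B4
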