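import Pool.Agent.Work.MP_4eb3f9_an_helper82.B4a

/-!
# MP_4eb3f9_an, block B4, part b: real parts of entire functions approximate periodic functions
-/

open Complex MeasureTheory Filter Topology
open scoped ContDiff ComplexOrder

namespace CMA.B4

instance factTwoPi : Fact (0 < 2 * Real.pi) := ⟨Real.two_pi_pos⟩

/-- The property of being the sum of an analytic and an antianalytic function. -/
def AA (p : C(AddCircle (2 * Real.pi), ℂ)) : Prop :=
  ∃ G₁ G₂ : ℂ → ℂ, Differentiable ℂ G₁ ∧ Differentiable ℂ G₂ ∧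
    ∀ x : ℝ, p (x : AddCircle (2 * Real.pi)) =
      G₁ (exp (x * I)) + (starRingEnd ℂ) (G₂ (exp (x * I)))

lemma fourier_two_pi (n : ℤ) (x : ℝ) :
    fourier n (x : AddCircle (2 * Real.pi)) = exp (n * (x * I)) := by
  rw [fourier_coe_apply]
  congr 1
  have : (Real.pi : ℂ) ≠ 0 := by exact_mod_cast Real.pi_ne_zero
  push_cast
  field_simp

lemma aa_fourier (n : ℤ) : AA (fourier n) := by
  rcases Int.eq_nat_or_neg n with ⟨k, rfl | rfl⟩
  · refine ⟨fun w => w ^ k, fun _ => 0, by fun_prop, by fun_prop, fun x => ?_⟩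
    rw [fourier_two_pi]
    simp [← Complex.exp_nat_mul]
  · refine ⟨fun _ => 0, fun w => w ^ k, by fun_prop, by fun_prop, fun x => ?_⟩
    rw [fourier_two_pi]
    simp only [zero_add, ← Complex.exp_conj, map_mul, conj_ofReal, conj_I, map_natCast,
      ← Complex.exp_nat_mul]
    congr 1
    push_cast
    ring

lemma aa_span {p : C(AddCircle (2 * Real.pi), ℂ)}
    (hp : p ∈ Submodule.span ℂ (Set.range (@fourier (2 * Real.pi)))) : AA p := by
  induction hp using Submodule.span_induction with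
  | mem p hp =>
    obtain ⟨n, rfl⟩ := hp
    exact aa_fourier n
  | zero => exact ⟨fun _ => 0, fun _ => 0, by fun_prop, by fun_prop, fun x => by simp⟩
  | add p q _ _ hp hq =>
    obtain ⟨G₁, G₂, h1, h2, h3⟩ := hp
    obtain ⟨K₁, K₂, k1, k2, k3⟩ := hq
    refine ⟨fun w => G₁ w + K₁ w, fun w => G₂ w + K₂ w, h1.add k1, h2.add k2, fun x => ?_⟩
    simp only [ContinuousMap.add_apply, h3, k3, map_add]
    ring
  | smul a p _ hp =>
    obtain ⟨G₁, G₂, h1, h2, h3⟩ := hp
    refine ⟨fun w => a * G₁ w, fun w => (starRingEnd ℂ) a * G₂ w, h1.const_mul a,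
      h2.const_mul _, fun x => ?_⟩
    simp only [ContinuousMap.smul_apply, h3, smul_eq_mul, map_mul, conj_conj]
    ring

/-- Continuous periodic functions are uniform limits of real parts of entire functions. -/
lemma approx {f : ℝ → ℝ} (hf : Continuous f) (hp : Function.Periodic f (2 * Real.pi)) {ε : ℝ}
    (hε : 0 < ε) :
    ∃ G : ℂ → ℂ, Differentiable ℂ G ∧ ∀ θ : ℝ, |(G (exp (θ * I))).re - f θ| ≤ ε := by
  have hcont : Continuous (hp.lift : AddCircle (2 * Real.pi) → ℝ) := by
    have hq : Topology.IsQuotientMap (QuotientAddGroup.mk : ℝ → AddCircle (2 * Real.pi)) :=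
      isQuotientMap_quotient_mk'
    rw [hq.continuous_iff]
    exact hf
  let g : C(AddCircle (2 * Real.pi), ℂ) :=
    ⟨fun x => ((hp.lift x : ℝ) : ℂ), continuous_ofReal.comp hcont⟩
  have hg : g ∈ (Submodule.span ℂ (Set.range (@fourier (2 * Real.pi)))).topologicalClosure := by
    rw [span_fourier_closure_eq_top]
    trivial
  have hg' : g ∈ closure
      ((Submodule.span ℂ (Set.range (@fourier (2 * Real.pi))) :
        Submodule ℂ C(AddCircle (2 * Real.pi), ℂ)) : Set C(AddCircle (2 * Real.pi), ℂ)) := hg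
  rw [Metric.mem_closure_iff] at hg'
  obtain ⟨p, hps, hpd⟩ := hg' ε hε
  obtain ⟨G₁, G₂, h1, h2, h3⟩ := aa_span hps
  refine ⟨fun w => G₁ w + G₂ w, h1.add h2, fun θ => ?_⟩
  have h4 : dist (g (θ : AddCircle (2 * Real.pi))) (p (θ : AddCircle (2 * Real.pi))) < ε :=
    (ContinuousMap.dist_apply_le_dist _).trans_lt hpd
  have h5 : g (θ : AddCircle (2 * Real.pi)) = (f θ : ℂ) := by
    simp [g]
  rw [h5, dist_comm, dist_eq_norm] at h4
  have h6 : (G₁ (exp (θ * I)) + G₂ (exp (θ * I))).re - f θ =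
      (p (θ : AddCircle (2 * Real.pi)) - (f θ : ℂ)).re := by
    rw [h3]
    simp
  rw [h6]
  exact (Complex.abs_re_le_norm _).trans h4.le

end CMA.B4
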