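import Pool.Agent.Work.MP_4eb3f9_an.Basic

/-!
# MP_4eb3f9_an, block E, part 1: preparations
-/

open Complex MeasureTheory Filter Topology
open scoped ContDiff ComplexOrder

namespace CMA.E

/-- The slice of `u` over the point `r e^{iθ}`. -/
noncomputable def sl (u : ℂ × ℂ → ℝ) (r θ : ℝ) : ℂ → ℝ := fun z => u (z, r * exp (θ * I))

section slice

variable {u : ℂ × ℂ → ℝ} (hu : ContDiff ℝ ∞ u)

include hu in
lemma sl_contDiff (r θ : ℝ) : ContDiff ℝ ∞ (sl u r θ) :=
  hu.comp (contDiff_id.prodMk contDiff_const)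

include hu in
lemma sl_cont (r : ℝ) : Continuous fun p : ℝ × ℂ => u (p.2, r * exp (p.1 * I)) := by
  have := hu.continuous
  fun_prop

lemma sl_periodic (r θ : ℝ) : sl u r (θ + 2 * Real.pi) = sl u r θ := by
  funext z
  have : exp (((θ + 2 * Real.pi : ℝ) : ℂ) * I) = exp (θ * I) := by
    push_cast
    rw [add_mul, Complex.exp_add, Complex.exp_two_pi_mul_I, mul_one]
  simp only [sl, this]

include hu in
lemma fderiv_sl (r θ : ℝ) (z v : ℂ) :
    fderiv ℝ (sl u r θ) z v = fderiv ℝ u (z, r * exp (θ * I)) (v, 0) := by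
  have h1 : HasFDerivAt (fun z : ℂ => ((z, r * exp (θ * I)) : ℂ × ℂ))
      (ContinuousLinearMap.inl ℝ ℂ ℂ) z := hasFDerivAt_prodMk_left z _
  have h2 : HasFDerivAt u (fderiv ℝ u (z, r * exp (θ * I))) (z, r * exp (θ * I)) :=
    (cd_diff hu _).hasFDerivAt
  have h3 := (h2.comp z h1).fderiv
  have h4 : (u ∘ fun z : ℂ => ((z, r * exp (θ * I)) : ℂ × ℂ)) = sl u r θ := rfl
  rw [h4] at h3
  rw [h3]
  simp

include hu in
lemma dirE_sl (r θ : ℝ) : dirE (sl u r θ) = 4 * ∫ z, gz u (z, r * exp (θ * I)) := by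
  rw [dirE, ← integral_const_mul]
  congr 1
  funext z
  rw [fderiv_sl hu, fderiv_sl hu]
  simp only [gz, pd, dir]
  simp
  ring

lemma gz_zero (hsupp : ∀ p, u p ≠ 0 → p ∈ Bidisc) {z w : ℂ} (hz : 1 < ‖z‖) :
    gz u (z, w) = 0 := by
  have h1 : u =ᶠ[𝓝 (z, w)] fun _ => (0 : ℝ) := by
    have h2 : ∀ᶠ p : ℂ × ℂ in 𝓝 (z, w), 1 < ‖p.1‖ := by
      have : Tendsto (fun p : ℂ × ℂ => ‖p.1‖) (𝓝 (z, w)) (𝓝 ‖z‖) :=
        Continuous.tendsto (by fun_prop) _
      exact this.eventually (lt_mem_nhds hz)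
    filter_upwards [h2] with p hp
    by_contra hne
    exact absurd (hsupp p hne).1 (by linarith)
  have h3 : ∀ k, pd k u (z, w) = 0 := by
    intro k
    rw [(pd_congr h1 k).eq_of_nhds, pd_const]
  simp [gz, h3]

lemma int_gz (hsupp : ∀ p, u p ≠ 0 → p ∈ Bidisc) (w : ℂ) :
    ∫ z, gz u (z, w) = ∫ z in Metric.closedBall (0 : ℂ) 2, gz u (z, w) := by
  rw [setIntegral_eq_integral_of_forall_compl_eq_zero]
  intro z hz
  refine gz_zero hsupp ?_
  simp only [Metric.mem_closedBall, dist_zero_right, not_le] at hz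
  linarith

include hu in
lemma cont_int_gz (hsupp : ∀ p, u p ≠ 0 → p ∈ Bidisc) (r : ℝ) :
    Continuous fun θ : ℝ => ∫ z, gz u (z, r * exp (θ * I)) := by
  simp only [int_gz hsupp]
  have h1 : Continuous (Function.uncurry fun (θ : ℝ) (z : ℂ) => gz u (z, r * exp (θ * I))) := by
    have h2 : Continuous (gz u) := (cd_gz hu).continuous
    have : Continuous fun p : ℝ × ℂ => gz u (p.2, r * exp (p.1 * I)) := by fun_prop
    exact this
  exact continuous_parametric_integral_of_continuous h1 (isCompact_closedBall (0 : ℂ) 2)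

include hu in
lemma cont_gram (r : ℝ) (N n : ℕ) : Continuous fun θ : ℝ => gram N n (sl u r θ) := by
  refine continuous_matrix fun i j => ?_
  have h1 : Continuous (Function.uncurry fun (θ : ℝ) (z : ℂ) =>
      (starRingEnd ℂ z) ^ (i : ℕ) * z ^ (j : ℕ) * (Real.exp (2 * n * sl u r θ z) : ℂ)) := by
    have h2 := sl_cont hu r
    have : Continuous fun p : ℝ × ℂ => (starRingEnd ℂ p.2) ^ (i : ℕ) * p.2 ^ (j : ℕ) *
        (Real.exp (2 * n * u (p.2, r * exp (p.1 * I))) : ℂ) := by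
      have h3 : Continuous fun p : ℝ × ℂ => Real.exp (2 * n * u (p.2, r * exp (p.1 * I))) := by
        fun_prop
      have h4 := continuous_ofReal.comp h3
      have h5 : Continuous fun p : ℝ × ℂ => (starRingEnd ℂ p.2) ^ (i : ℕ) * p.2 ^ (j : ℕ) := by
        have := Complex.continuous_conj
        fun_prop
      exact h5.mul h4
    exact this
  exact continuous_parametric_integral_of_continuous h1 (isCompact_closedBall (0 : ℂ) 2)

end slice

/-- The quadratic form of the Gram matrix. -/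
lemma gram_form {h : ℂ → ℝ} (hh : Continuous h) (N n : ℕ) (v : Fin N → ℂ) :
    (star v ⬝ᵥ (gram N n h).mulVec v) =
      ((∫ z in Metric.closedBall (0 : ℂ) 2,
        ‖∑ i : Fin N, v i * z ^ (i : ℕ)‖ ^ 2 * Real.exp (2 * n * h z) : ℝ) : ℂ) := by
  have hK : IsCompact (Metric.closedBall (0 : ℂ) 2) := isCompact_closedBall _ _
  have hc := Complex.continuous_conj
  have he : Continuous fun z : ℂ => ((Real.exp (2 * n * h z) : ℝ) : ℂ) :=
    continuous_ofReal.comp (by fun_prop)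
  have hint : ∀ i j : Fin N, IntegrableOn (fun z : ℂ => (starRingEnd ℂ) (v i) *
      ((starRingEnd ℂ z) ^ (i : ℕ) * z ^ (j : ℕ) * (Real.exp (2 * n * h z) : ℂ) * v j))
      (Metric.closedBall (0 : ℂ) 2) := by
    intro i j
    refine ContinuousOn.integrableOn_compact hK (Continuous.continuousOn ?_)
    have h1 : Continuous fun z : ℂ => (starRingEnd ℂ z) ^ (i : ℕ) * z ^ (j : ℕ) := by fun_prop
    exact continuous_const.mul ((h1.mul he).mul continuous_const)
  have h1 : (star v ⬝ᵥ (gram N n h).mulVec v) =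
      ∑ i : Fin N, ∑ j : Fin N, ∫ z in Metric.closedBall (0 : ℂ) 2, (starRingEnd ℂ) (v i) *
      ((starRingEnd ℂ z) ^ (i : ℕ) * z ^ (j : ℕ) * (Real.exp (2 * n * h z) : ℂ) * v j) := by
    simp only [dotProduct, Matrix.mulVec, Finset.mul_sum, Pi.star_apply, gram]
    refine Finset.sum_congr rfl fun i _ => Finset.sum_congr rfl fun j _ => ?_
    rw [← integral_mul_const, ← integral_const_mul]
    rfl
  rw [h1]
  simp only [← integral_finsetSum _ fun j _ => hint _ j]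
  rw [← integral_finsetSum _ fun i _ => integrable_finsetSum _ fun j _ => hint i j]
  rw [← integral_complex_ofReal]
  congr 1
  funext z
  have h2 : ((‖∑ i : Fin N, v i * z ^ (i : ℕ)‖ ^ 2 : ℝ) : ℂ) =
      (starRingEnd ℂ) (∑ i : Fin N, v i * z ^ (i : ℕ)) * ∑ i : Fin N, v i * z ^ (i : ℕ) := by
    rw [← Complex.normSq_eq_norm_sq, Complex.normSq_eq_conj_mul_self]
  push_cast at h2 ⊢
  rw [h2]
  simp only [map_sum, map_mul, map_pow, Finset.sum_mul, Finset.mul_sum]
  rw [Finset.sum_comm]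
  refine Finset.sum_congr rfl fun i _ => Finset.sum_congr rfl fun j _ => ?_
  ring

/-- The polynomials built from the matrices. -/
noncomputable def Fj {d N : ℕ} (E : Fin (d + 1) → Matrix (Fin N) (Fin N) ℂ) (r : ℝ) (j : Fin N)
    (p : ℂ × ℂ) : ℂ :=
  ∑ k : Fin (d + 1), ∑ i : Fin N, p.1 ^ (i : ℕ) * E k i j * (p.2 / r) ^ (k : ℕ)

lemma Fj_contDiff {d N : ℕ} (E : Fin (d + 1) → Matrix (Fin N) (Fin N) ℂ) (r : ℝ) (j : Fin N) :
    ContDiff ℂ ∞ (Fj E r j) := by
  unfold Fj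
  refine ContDiff.sum fun k _ => ContDiff.sum fun i _ => ?_
  refine ContDiff.mul (ContDiff.mul (contDiff_fst.pow _) contDiff_const) ?_
  exact (contDiff_snd.div_const _).pow _

lemma Fj_zero {d N : ℕ} (E : Fin (d + 1) → Matrix (Fin N) (Fin N) ℂ) (r : ℝ) (j : Fin N)
    (z : ℂ) : Fj E r j (z, 0) = ∑ i : Fin N, z ^ (i : ℕ) * E 0 i j := by
  unfold Fj
  rw [Finset.sum_eq_single (0 : Fin (d + 1))]
  · simp
  · intro k _ hk
    have : (k : ℕ) ≠ 0 := fun h => hk (Fin.ext h)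
    simp [this]
  · simp

lemma Fj_circle {d N : ℕ} (E : Fin (d + 1) → Matrix (Fin N) (Fin N) ℂ) {r : ℝ} (hr : r ≠ 0)
    (a : Fin N → ℂ) (z : ℂ) (θ : ℝ) :
    ∑ j, a j * Fj E r j (z, r * exp (θ * I)) =
      ∑ i : Fin N, ((∑ k : Fin (d + 1), exp (((k : ℕ) : ℂ) * (θ : ℂ) * I) • E k).mulVec a) i *
        z ^ (i : ℕ) := by
  have hr' : (r : ℂ) ≠ 0 := by exact_mod_cast hr
  have h1 : ∀ k : ℕ, ((r : ℂ) * exp (θ * I) / r) ^ k = exp ((k : ℂ) * (θ : ℂ) * I) := by
    intro k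
    rw [mul_div_cancel_left₀ _ hr', ← Complex.exp_nat_mul]
    congr 1
    ring
  simp only [Fj, h1, Matrix.mulVec, dotProduct, Matrix.sum_apply, Matrix.smul_apply, smul_eq_mul,
    Finset.mul_sum, Finset.sum_mul]
  symm
  rw [Finset.sum_comm]
  refine Finset.sum_congr rfl fun j _ => ?_
  rw [Finset.sum_comm]
  refine Finset.sum_congr rfl fun k _ => Finset.sum_congr rfl fun i _ => ?_
  ring

/-- Duality: a bound for all linear combinations gives a bound for the sum of squares. -/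
lemma sum_sq_le {N : ℕ} (x : Fin N → ℂ) {B : ℝ} (hB : 0 ≤ B)
    (h : ∀ a : Fin N → ℂ, ∑ i, ‖a i‖ ^ 2 ≤ 1 → ‖∑ j, a j * x j‖ ^ 2 ≤ B) :
    ∑ j, ‖x j‖ ^ 2 ≤ B := by
  set S : ℝ := ∑ j, ‖x j‖ ^ 2 with hS
  have hS0 : 0 ≤ S := Finset.sum_nonneg fun _ _ => by positivity
  rcases hS0.eq_or_lt with h0 | hpos
  · rw [← h0]
    exact hB
  · have hsq : 0 < Real.sqrt S := Real.sqrt_pos.2 hpos
    have h1 := h (fun j => (starRingEnd ℂ) (x j) / (Real.sqrt S : ℂ)) (by
      have : ∀ i, ‖(starRingEnd ℂ) (x i) / (Real.sqrt S : ℂ)‖ ^ 2 = ‖x i‖ ^ 2 / S := by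
        intro i
        rw [norm_div, div_pow, RCLike.norm_conj, norm_real, Real.norm_eq_abs, sq_abs,
          Real.sq_sqrt hS0]
      simp only [this]
      rw [← Finset.sum_div, ← hS, div_self hpos.ne'])
    have h2 : ∑ j, (starRingEnd ℂ) (x j) / (Real.sqrt S : ℂ) * x j = (Real.sqrt S : ℂ) := by
      have h3 : ∀ j, (starRingEnd ℂ) (x j) / (Real.sqrt S : ℂ) * x j =
          ((‖x j‖ ^ 2 / Real.sqrt S : ℝ) : ℂ) := by
        intro j
        have : ((‖x j‖ ^ 2 : ℝ) : ℂ) = (starRingEnd ℂ) (x j) * x j := by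
          rw [← Complex.normSq_eq_norm_sq, Complex.normSq_eq_conj_mul_self]
        push_cast at this ⊢
        rw [this]
        ring
      simp only [h3]
      rw [← ofReal_sum, ← Finset.sum_div, ← hS, Real.div_sqrt]
    rw [h2, norm_real, Real.norm_eq_abs, sq_abs, Real.sq_sqrt hS0] at h1
    exact h1

end CMA.E
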